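import Pool.Agent.H47.KS.Targets

/-!
MP_90d669_co, row CS1: small gap, a long progression in the window of `X`.
-/

set_option autoImplicit false

namespace Pool.Agent.H94.KSU

open Finset Pool.Agent.H47.KS Pool.Agent.H37.SP

theorem pf_CS1 (hCSX : T_CSX) (hCSP : T_CSP) (hPCD : T_PCD) (hWS : T_WS) : T_CS1 := by
  intro P N G C K I X wK wI hP hB hgap hXC hX4 hXn
  have key : ∀ K' ⊆ K, ∀ I' ⊆ I, K'.card + I'.card = X.card → ∀ z : ℤ,
      ee G ((C \ X) ∪ (K' ∪ I')) = z →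
      z ∈ SS P.k G ∧ |z - (ee G C + ∑ x ∈ X, (wK - dg G C x))| ≤ (P.H : ℤ) ∧
        |z - ee G C| ≤ ((P.n * P.k : ℕ) : ℤ) := by
    intro K' hK' I' hI' hc z hz
    have hKI : Disjoint K' I' := (hB.dKI.mono_left hK').mono_right hI'
    have hO : Disjoint C (K' ∪ I') := by
      rw [disjoint_union_right]
      exact ⟨(hB.dKC.mono_left hK').symm, (hB.dIC.mono_left hI').symm⟩
    have hcO : (K' ∪ I').card = X.card := by
      rw [card_union_of_disjoint hKI, hc]
    refine ⟨⟨(C \ X) ∪ (K' ∪ I'), ?_, hz⟩, ?_, ?_⟩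
    · rw [card_swap hXC hO hcO, hB.cC]
    · rw [← hz]
      exact hWS P N G C K I X K' I' wK wI hP hB hgap hXC hXn hK' hI' hc
    · rw [← hz]
      refine (swap_dist G hB.cC hXC hO hcO).trans ?_
      push_cast
      have h1 : (X.card : ℤ) ≤ (P.n : ℤ) := by exact_mod_cast hXn
      exact mul_le_mul_of_nonneg_right h1 (Int.natCast_nonneg _)
  rcases hCSX P N G C K I X wK wI hP hB hXC hX4 hXn with
    ⟨b, g, hg, hall⟩ | ⟨K3, hK3, I3, hI3, hn, hx, s, s', h, hh, h1, h2, h3⟩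
  · refine ⟨b, g, 0, by simp, ?_, ?_⟩
    · rw [(hPCD b g 0 P.x0).1 hg]
      omega
    · intro z hz
      obtain ⟨K', hK', I', hI', hc, he⟩ := hall z hz
      exact key K' hK' I' hI' hc z he
  · obtain ⟨b, g, c, hc1, hall⟩ :=
      hCSP P N G C K I X K3 I3 wK wI s s' h hP hB hXC hX4 hXn hK3 hI3 hn hx hh h1 h2 h3
    refine ⟨b, g, c, ?_, (hPCD b g c P.x0).2 hc1, ?_⟩
    · rcases hc1 with rfl | rfl <;> simp
    · intro z hz
      obtain ⟨K', hK', I', hI', hc, he⟩ := hall z hz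
      exact key K' hK' I' hI' hc z he

end Pool.Agent.H94.KSU
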