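import Pool.Agent.H47.KS.Targets

/-!
Module SUM of the board ksu_modules (MP_90d669_co): at least `p ^ 2 + 1` sums of `p` elements.
-/

set_option autoImplicit false

namespace Pool.Agent.H94.KSU

open Finset Pool.Agent.H47.KS

/-- extension of `w` -/
noncomputable def ext {n : ℕ} (w : Fin n → ℤ) (t : ℕ) : ℤ := if h : t < n then w ⟨t, h⟩ else 0

theorem ext_val {n : ℕ} (w : Fin n → ℤ) (x : Fin n) : ext w x.val = w x := by
  unfold ext
  rw [dif_pos x.2]

theorem ext_lt {n : ℕ} {w : Fin n → ℤ} (hw : StrictMono w) {s t : ℕ} (h : s < t) (ht : t < n) :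
    ext w s < ext w t := by
  unfold ext
  rw [dif_pos (h.trans ht), dif_pos ht]
  exact hw h

theorem lift {n : ℕ} (w : Fin n → ℤ) (A : Finset ℕ) (hA : A ⊆ range n) :
    ∃ Q : Finset (Fin n), Q.card = A.card ∧ ∑ x ∈ Q, w x = ∑ t ∈ A, ext w t := by
  refine ⟨univ.filter (fun x => x.val ∈ A), ?_⟩
  have h : (univ.filter (fun x : Fin n => x.val ∈ A)).image Fin.val = A := by
    ext t
    simp only [mem_image, mem_filter, mem_univ, true_and]
    constructor
    · rintro ⟨x, hx, rfl⟩
      exact hx
    · intro ht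
      exact ⟨⟨t, mem_range.1 (hA ht)⟩, ht, rfl⟩
  refine ⟨?_, ?_⟩
  · conv_rhs => rw [← h]
    rw [card_image_of_injective _ Fin.val_injective]
  · conv_rhs => rw [← h]
    rw [sum_image (Fin.val_injective.injOn)]
    exact sum_congr rfl fun x _ => (ext_val w x).symm

/-- the sets of the chain -/
def AA (p i j : ℕ) : Finset ℕ := range (p - i - 1) ∪ ({p - i - 1 + j} ∪ Ico (2 * p - i) (2 * p))

theorem AA_sub {p i j : ℕ} (hi : i < p) (hj : j ≤ p) : AA p i j ⊆ range (2 * p) := by
  intro t ht
  unfold AA at ht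
  simp only [mem_union, mem_range, mem_singleton, mem_Ico] at ht ⊢
  omega

theorem dis1 {p i j : ℕ} (hi : i < p) (hj : j ≤ p) :
    Disjoint (range (p - i - 1)) ({p - i - 1 + j} ∪ Ico (2 * p - i) (2 * p)) := by
  rw [disjoint_left]
  intro t h1 h2
  simp only [mem_union, mem_range, mem_singleton, mem_Ico] at h1 h2
  omega

theorem dis2 {p i j : ℕ} (hi : i < p) (hj : j ≤ p) :
    Disjoint ({p - i - 1 + j} : Finset ℕ) (Ico (2 * p - i) (2 * p)) := by
  rw [disjoint_left]
  intro t h1 h2
  simp only [mem_singleton, mem_Ico] at h1 h2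
  omega

theorem AA_card {p i j : ℕ} (hi : i < p) (hj : j ≤ p) : (AA p i j).card = p := by
  unfold AA
  rw [card_union_of_disjoint (dis1 hi hj), card_union_of_disjoint (dis2 hi hj), card_range,
    card_singleton, Nat.card_Ico]
  omega

/-- the sums of the chain -/
noncomputable def SS {n : ℕ} (w : Fin n → ℤ) (p i j : ℕ) : ℤ := ∑ t ∈ AA p i j, ext w t

theorem SS_eq {n : ℕ} (w : Fin n → ℤ) {p i j : ℕ} (hi : i < p) (hj : j ≤ p) :
    SS w p i j = ∑ t ∈ range (p - i - 1), ext w t + (ext w (p - i - 1 + j) +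
      ∑ t ∈ Ico (2 * p - i) (2 * p), ext w t) := by
  unfold SS AA
  rw [sum_union (dis1 hi hj), sum_union (dis2 hi hj), sum_singleton]

theorem step {p : ℕ} {w : Fin (2 * p) → ℤ} (hw : StrictMono w) {i j j' : ℕ} (hi : i < p)
    (h : j < j') (hj : j' ≤ p) : SS w p i j < SS w p i j' := by
  rw [SS_eq w hi (h.le.trans hj), SS_eq w hi hj]
  have := ext_lt hw (s := p - i - 1 + j) (t := p - i - 1 + j') (by omega) (by omega)
  linarith

theorem turn {p : ℕ} (w : Fin (2 * p) → ℤ) {i : ℕ} (hi : i + 1 < p) :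
    SS w p i p = SS w p (i + 1) 0 := by
  rw [SS_eq w (by omega) le_rfl, SS_eq w hi (Nat.zero_le _)]
  have e1 : p - i - 1 = (p - (i + 1) - 1) + 1 := by omega
  have e2 : 2 * p - i = (2 * p - (i + 1)) + 1 := by omega
  have e3 : ∑ t ∈ Ico (2 * p - (i + 1)) (2 * p), ext w t = ext w (2 * p - (i + 1)) +
      ∑ t ∈ Ico (2 * p - i) (2 * p), ext w t := by
    rw [e2]
    exact sum_eq_sum_Ico_succ_bot (by omega) _
  have e4 : p - i - 1 + p = 2 * p - (i + 1) := by omega
  rw [e3, e4, e1, sum_range_succ, add_zero]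
  ring

theorem rows {p : ℕ} {w : Fin (2 * p) → ℤ} (hw : StrictMono w) {i i' : ℕ} (h : i < i')
    (hi : i' < p) {j : ℕ} (hj : j < p) : SS w p i j < SS w p i' 0 := by
  induction i', h using Nat.le_induction with
  | base =>
    rw [← turn w hi]
    exact step hw (by omega) hj le_rfl
  | succ k hk ih =>
    have h1 := ih (by omega)
    have h2 := step hw (i := k) (j := 0) (j' := p) (by omega) (by omega) le_rfl
    rw [turn w hi] at h2
    exact h1.trans h2

theorem pf_SUM : T_SUM := by
  classical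
  intro p w hp hw
  set T := ((univ : Finset (Fin (2 * p))).powersetCard p).image (fun Q => ∑ i ∈ Q, w i) with hT
  have hmem : ∀ i j, i < p → j ≤ p → SS w p i j ∈ T := by
    intro i j hi hj
    obtain ⟨Q, hQ1, hQ2⟩ := lift w (AA p i j) (AA_sub hi hj)
    rw [hT, mem_image]
    refine ⟨Q, ?_, hQ2⟩
    rw [mem_powersetCard]
    exact ⟨subset_univ _, hQ1.trans (AA_card hi hj)⟩
  set U := (range p ×ˢ range p).image (fun x : ℕ × ℕ => SS w p x.1 x.2) with hU
  have hinj : Set.InjOn (fun x : ℕ × ℕ => SS w p x.1 x.2) (range p ×ˢ range p : Finset (ℕ × ℕ)) := by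
    rintro ⟨i, j⟩ hx ⟨i', j'⟩ hy h
    simp only [coe_product, Set.mem_prod, mem_coe, mem_range] at hx hy
    change SS w p i j = SS w p i' j' at h
    have key : ∀ a b a' b' : ℕ, a' < p → b < p → b' < p → a < a' →
        SS w p a b < SS w p a' b' := by
      intro a b a' b' h1 h2 h3 h4
      have h5 := rows hw h4 h1 h2
      rcases Nat.eq_zero_or_pos b' with h6 | h6
      · rw [h6]
        exact h5
      · exact h5.trans (step hw h1 h6 h3.le)
    have hii : i = i' := by
      rcases lt_trichotomy i i' with h1 | h1 | h1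
      · exact absurd h (key i j i' j' hy.1 hx.2 hy.2 h1).ne
      · exact h1
      · exact absurd h (key i' j' i j hx.1 hy.2 hx.2 h1).ne'
    subst hii
    have hjj : j = j' := by
      rcases lt_trichotomy j j' with h1 | h1 | h1
      · exact absurd h (step hw hx.1 h1 hy.2.le).ne
      · exact h1
      · exact absurd h (step hw hx.1 h1 hx.2.le).ne'
    rw [hjj]
  have hlast : SS w p (p - 1) p ∉ U := by
    rw [hU, mem_image]
    rintro ⟨⟨i, j⟩, hx, h⟩
    rw [mem_product, mem_range, mem_range] at hx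
    change SS w p i j = SS w p (p - 1) p at h
    have h2 := step hw (i := i) hx.1 hx.2 le_rfl
    rcases Nat.lt_or_ge i (p - 1) with h1 | h1
    · have h3 := rows hw h1 (by omega) hx.2
      have h4 := step hw (i := p - 1) (j := 0) (j' := p) (by omega) (by omega) le_rfl
      linarith
    · have h3 : i = p - 1 := by
        have := hx.1
        omega
      rw [h3] at h2 h
      linarith
  have hsub : insert (SS w p (p - 1) p) U ⊆ T := by
    intro z hz
    rw [mem_insert] at hz
    rcases hz with hz | hz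
    · rw [hz]
      exact hmem _ _ (by omega) le_rfl
    · rw [hU, mem_image] at hz
      obtain ⟨⟨i, j⟩, hx, h⟩ := hz
      rw [mem_product, mem_range, mem_range] at hx
      rw [← h]
      exact hmem _ _ hx.1 hx.2.le
  have h := card_le_card hsub
  rw [card_insert_of_notMem hlast, hU, card_image_of_injOn hinj, card_product, card_range] at h
  rw [pow_two]
  exact h

end Pool.Agent.H94.KSU
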